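import Mathlib

set_option autoImplicit false

namespace Pool.Agent.Results.MP_54f706_an.Infinite

open Set

lemma bas0 {p u : ℝ} (h : ∀ c ∈ cantorSet, p + u * c ∈ cantorSet) :
    ∀ c ∈ cantorSet, p + u / 3 * c ∈ cantorSet := by
  intro c hc
  have h1 : c / 3 ∈ cantorSet := by
    rw [cantorSet_eq_union_halves]; exact Or.inl ⟨c, hc, rfl⟩
  have := h _ h1
  rwa [show p + u * (c / 3) = p + u / 3 * c by ring] at this

lemma bas2 {p u : ℝ} (h : ∀ c ∈ cantorSet, p + u * c ∈ cantorSet) :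
    ∀ c ∈ cantorSet, p + 2 * (u / 3) + u / 3 * c ∈ cantorSet := by
  intro c hc
  have h1 : (2 + c) / 3 ∈ cantorSet := by
    rw [cantorSet_eq_union_halves]; exact Or.inr ⟨c, hc, rfl⟩
  have := h _ h1
  rwa [show p + u * ((2 + c) / 3) = p + 2 * (u / 3) + u / 3 * c by ring] at this

lemma step {κ p b v : ℝ} (hκ : 0 < κ) (hv : 0 < v) (hp : 7 / 9 ≤ p) (hp' : p + κ * v ≤ 1)
    (hb : 2 / 3 * κ ≤ b) (hb' : b + v ≤ 7 / 9 * κ)
    (hX : ∀ c ∈ cantorSet, p + κ * v * c ∈ cantorSet) (hY : ∀ c ∈ cantorSet, b + v * c ∈ cantorSet)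
    (h1 : p ^ 2 + b ^ 2 ≤ 1) (h2 : 1 ≤ (p + κ * v) ^ 2 + (b + v) ^ 2) :
    ∃ p' b', 7 / 9 ≤ p' ∧ p' + κ * (v / 3) ≤ 1 ∧ 2 / 3 * κ ≤ b' ∧ b' + v / 3 ≤ 7 / 9 * κ ∧
      (∀ c ∈ cantorSet, p' + κ * (v / 3) * c ∈ cantorSet) ∧
      (∀ c ∈ cantorSet, b' + v / 3 * c ∈ cantorSet) ∧
      p' ^ 2 + b' ^ 2 ≤ 1 ∧ 1 ≤ (p' + κ * (v / 3)) ^ 2 + (b' + v / 3) ^ 2 := by
  obtain ⟨w, rfl⟩ : ∃ w, v = 3 * w := ⟨v / 3, by ring⟩
  have hw : 0 < w := by linarith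
  have e : 3 * w / 3 = w := by ring
  have e' : κ * (3 * w) / 3 = κ * w := by ring
  have hX0 := bas0 hX
  have hX2 := bas2 hX
  have hY0 := bas0 hY
  have hY2 := bas2 hY
  rw [e'] at hX0 hX2
  rw [e] at hY0 hY2 ⊢
  have hu : 0 < κ * w := mul_pos hκ hw
  have hA : (2 * b + 3 * w) * w ≤ (2 * p + κ * w) * (κ * w) := by
    have : 2 * b + 3 * w ≤ (2 * p + κ * w) * κ := by nlinarith [mul_pos hu hκ]
    nlinarith
  have hB : (2 * p + 3 * (κ * w)) * (κ * w) ≤ (2 * b + 3 * w) * (3 * w) := by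
    have : (2 * p + 3 * (κ * w)) * κ ≤ (2 * b + 3 * w) * 3 := by nlinarith
    nlinarith
  by_cases c1 : 1 ≤ (p + κ * w) ^ 2 + (b + w) ^ 2
  · exact ⟨p, b, hp, by nlinarith, hb, by linarith, hX0, hY0, h1, c1⟩
  by_cases c2 : (p + 2 * (κ * w)) ^ 2 + (b + 2 * w) ^ 2 ≤ 1
  · refine ⟨p + 2 * (κ * w), b + 2 * w, by linarith, by nlinarith, by linarith, by linarith, hX2,
      hY2, c2, ?_⟩
    refine h2.trans_eq ?_
    ring
  by_cases c3 : 1 ≤ (p + κ * w) ^ 2 + (b + 2 * w + w) ^ 2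
  · exact ⟨p, b + 2 * w, hp, by nlinarith, by linarith, by linarith, hX0, hY2, by nlinarith, c3⟩
  · refine ⟨p + 2 * (κ * w), b, by linarith, by nlinarith, hb, by linarith, hX2, hY0,
      by nlinarith, ?_⟩
    nlinarith [mul_pos hu hu]

lemma box (k : ℕ) : ∃ x ∈ cantorSet, ∃ y ∈ cantorSet, x ^ 2 + y ^ 2 = 1 ∧
    2 / 3 * (1 / 3 : ℝ) ^ (k + 1) ≤ y ∧ y ≤ 7 / 9 * (1 / 3 : ℝ) ^ (k + 1) := by
  set κ : ℝ := (1 / 3 : ℝ) ^ (k + 1) with hκdef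
  have hκ : 0 < κ := by positivity
  have hκ1 : κ ≤ 1 / 3 := by
    rw [hκdef, pow_succ]
    have : (1 / 3 : ℝ) ^ k ≤ 1 := pow_le_one₀ (by norm_num) (by norm_num)
    linarith
  have r0 : ∀ m : ℕ, ∀ c ∈ cantorSet, 0 + (1 / 3 : ℝ) ^ m * c ∈ cantorSet := by
    intro m
    induction m with
    | zero => intro c hc; simpa using hc
    | succ m ih =>
      have := bas0 ih
      rwa [show (1 / 3 : ℝ) ^ m / 3 = (1 / 3) ^ (m + 1) by ring] at this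
  have r1 : ∀ m : ℕ, ∀ c ∈ cantorSet,
      (1 - (1 / 3 : ℝ) ^ m) + (1 / 3 : ℝ) ^ m * c ∈ cantorSet := by
    intro m
    induction m with
    | zero => intro c hc; simpa using hc
    | succ m ih =>
      have := bas2 ih
      rwa [show (1 / 3 : ℝ) ^ m / 3 = (1 / 3) ^ (m + 1) by ring,
        show 1 - (1 / 3 : ℝ) ^ m + 2 * (1 / 3) ^ (m + 1) = 1 - (1 / 3) ^ (m + 1) by ring] at this
  have key : ∀ n : ℕ, ∃ p' b', 7 / 9 ≤ p' ∧ p' + κ * (κ / 9 * (1 / 3) ^ n) ≤ 1 ∧ 2 / 3 * κ ≤ b' ∧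
      b' + κ / 9 * (1 / 3) ^ n ≤ 7 / 9 * κ ∧
      (∀ c ∈ cantorSet, p' + κ * (κ / 9 * (1 / 3) ^ n) * c ∈ cantorSet) ∧
      (∀ c ∈ cantorSet, b' + κ / 9 * (1 / 3) ^ n * c ∈ cantorSet) ∧
      p' ^ 2 + b' ^ 2 ≤ 1 ∧
      1 ≤ (p' + κ * (κ / 9 * (1 / 3) ^ n)) ^ 2 + (b' + κ / 9 * (1 / 3) ^ n) ^ 2 := by
    intro n
    induction n with
    | zero =>
      have hk2 : κ ^ 2 ≤ 1 / 9 := by nlinarith
      have hk2' : 0 < κ ^ 2 := by positivity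
      refine ⟨1 - κ ^ 2 / 3, 2 / 3 * κ, by nlinarith, by nlinarith, le_rfl, by linarith, ?_, ?_,
        by nlinarith, by nlinarith⟩
      · have := bas0 (r1 (2 * (k + 1) + 1))
        rwa [show (1 / 3 : ℝ) ^ (2 * (k + 1) + 1) = κ ^ 2 / 3 by rw [hκdef]; ring,
          show κ ^ 2 / 3 / 3 = κ * (κ / 9 * (1 / 3) ^ 0) by ring] at this
      · have := bas0 (bas2 (r0 (k + 1)))
        rwa [← hκdef, show 0 + 2 * (κ / 3) = 2 / 3 * κ by ring,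
          show κ / 3 / 3 = κ / 9 * (1 / 3) ^ 0 by ring] at this
    | succ n ih =>
      obtain ⟨p, b, h1, h2, h3, h4, h5, h6, h7, h8⟩ := ih
      have := step hκ (by positivity) h1 h2 h3 h4 h5 h6 h7 h8
      rwa [show κ / 9 * (1 / 3 : ℝ) ^ n / 3 = κ / 9 * (1 / 3) ^ (n + 1) by ring] at this
  have hK : IsCompact (cantorSet ×ˢ (cantorSet ∩ Icc (2 / 3 * κ) (7 / 9 * κ))) :=
    isCompact_cantorSet.prod (isCompact_cantorSet.inter_right isClosed_Icc)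
  have hcl := (hK.image (f := fun z : ℝ × ℝ => z.1 ^ 2 + z.2 ^ 2) (by fun_prop)).isClosed
  have h1 : (1 : ℝ) ∈ (fun z : ℝ × ℝ => z.1 ^ 2 + z.2 ^ 2) ''
      (cantorSet ×ˢ (cantorSet ∩ Icc (2 / 3 * κ) (7 / 9 * κ))) := by
    rw [← hcl.closure_eq, Metric.mem_closure_iff]
    intro ε hε
    obtain ⟨n, hn⟩ := exists_pow_lt_of_lt_one hε (show (1 / 3 : ℝ) < 1 by norm_num)
    obtain ⟨p, b, h1, h2, h3, h4, h5, h6, h7, h8⟩ := key n
    have ht : (0 : ℝ) < (1 / 3) ^ n := by positivity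
    set t : ℝ := (1 / 3) ^ n
    have hv : 0 < κ / 9 * t := by positivity
    have hv' : κ / 9 * t ≤ t / 27 := by nlinarith
    set v := κ / 9 * t
    have hu : 0 < κ * v := by positivity
    have hu' : κ * v ≤ v := by nlinarith
    refine ⟨p ^ 2 + b ^ 2, ⟨(p, b), ⟨by simpa using h5 0 zero_mem_cantorSet,
      by simpa using h6 0 zero_mem_cantorSet, h3, by linarith⟩, rfl⟩, ?_⟩
    rw [Real.dist_eq, abs_of_nonneg (by linarith)]
    set u := κ * v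
    nlinarith
  obtain ⟨⟨x, y⟩, ⟨hx, hy, hy1, hy2⟩, h⟩ := h1
  exact ⟨x, hx, y, hy, h, hy1, hy2⟩

theorem result :
    ({z : ℝ × ℝ | z.1 ^ 2 + z.2 ^ 2 = 1} ∩ cantorSet ×ˢ cantorSet).Infinite := by
  choose x hx y hy h h1 h2 using box
  have hanti : StrictAnti y := by
    refine strictAnti_nat_of_succ_lt (fun k => ?_)
    have a := h2 (k + 1)
    have b := h1 k
    have : (0 : ℝ) < (1 / 3) ^ (k + 1) := by positivity
    rw [pow_succ] at a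
    linarith
  exact infinite_of_injective_forall_mem (f := fun k => (x k, y k))
    (fun k l hkl => hanti.injective (congrArg Prod.snd hkl)) (fun k => ⟨h k, hx k, hy k⟩)

end Pool.Agent.Results.MP_54f706_an.Infinite
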